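import Pool.Agent.P8H89.CF.Cq

/-!
# CF/CS: the sum over the moduli
-/

set_option autoImplicit false

namespace Pool.Agent.P8H89.CF

open Finset Pool.Agent.P8H14.CF

theorem prod_frac (s : Finset ℕ) : (∀ p ∈ s, 2 ≤ p) →
    ∏ p ∈ s, ((p : ℝ) / ((p : ℝ) - 1)) ≤ (s.card : ℝ) + 1 := by
  induction s using Finset.induction_on_max with
  | empty => simp
  | insert a s ha ih =>
    intro h
    have has : a ∉ s := fun h1 => lt_irrefl a (ha a h1)
    have h2 := ih fun p hp => h p (mem_insert_of_mem hp)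
    have ha2 : 2 ≤ a := h a (mem_insert_self a s)
    have hc : s.card + 2 ≤ a := by
      have h3 : s ⊆ Ico 2 a := fun p hp => mem_Ico.mpr ⟨h p (mem_insert_of_mem hp), ha p hp⟩
      have h4 := card_le_card h3
      rw [Nat.card_Ico] at h4
      omega
    rw [prod_insert has, card_insert_of_notMem has]
    have hc' : (s.card : ℝ) + 2 ≤ a := by exact_mod_cast hc
    have h5 : (0 : ℝ) ≤ s.card := Nat.cast_nonneg _
    have h6 : (0 : ℝ) < (a : ℝ) - 1 := by linarith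
    have h7 : (a : ℝ) / ((a : ℝ) - 1) ≤ ((s.card : ℝ) + 2) / ((s.card : ℝ) + 1) := by
      rw [div_le_div_iff₀ h6 (by linarith)]
      nlinarith
    calc (a : ℝ) / ((a : ℝ) - 1) * ∏ p ∈ s, ((p : ℝ) / ((p : ℝ) - 1))
        ≤ ((s.card : ℝ) + 2) / ((s.card : ℝ) + 1) * ((s.card : ℝ) + 1) := by
          refine mul_le_mul h7 h2 (prod_nonneg fun p hp => ?_) (by positivity)
          have h8 : (2 : ℝ) ≤ p := by exact_mod_cast h p (mem_insert_of_mem hp)
          exact div_nonneg (by linarith) (by linarith)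
      _ = ((s.card + 1 : ℕ) : ℝ) + 1 := by
          field_simp
          push_cast
          ring

theorem frac_le {n : ℕ} (hn : 1 ≤ n) : (n : ℝ) / n.totient ≤ 3 * (1 + Real.log n) := by
  have hφ : (0 : ℝ) < n.totient := by exact_mod_cast Nat.totient_pos.mpr hn
  have hn0 : (0 : ℝ) < n := by exact_mod_cast hn
  have h1 : (n : ℝ) / n.totient = ∏ p ∈ n.primeFactors, ((p : ℝ) / ((p : ℝ) - 1)) := by
    have h2 := Nat.totient_mul_prod_primeFactors n
    have h3 : (n.totient : ℝ) * ∏ p ∈ n.primeFactors, (p : ℝ) =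
        n * ∏ p ∈ n.primeFactors, ((p : ℝ) - 1) := by
      have h4 : ((n.totient * ∏ p ∈ n.primeFactors, p : ℕ) : ℝ) =
          ((n * ∏ p ∈ n.primeFactors, (p - 1) : ℕ) : ℝ) := by rw [h2]
      push_cast at h4
      rw [h4]
      congr 1
      refine prod_congr rfl fun p hp => ?_
      rw [Nat.cast_sub (Nat.prime_of_mem_primeFactors hp).one_lt.le, Nat.cast_one]
    have h5 : ∏ p ∈ n.primeFactors, ((p : ℝ) - 1) ≠ 0 := by
      refine prod_ne_zero_iff.mpr fun p hp => ?_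
      have h6 : (1 : ℝ) < p := by exact_mod_cast (Nat.prime_of_mem_primeFactors hp).one_lt
      linarith
    rw [prod_div_distrib, div_eq_div_iff hφ.ne' h5, ← h3]
    ring
  rw [h1]
  refine (prod_frac _ fun p hp => (Nat.prime_of_mem_primeFactors hp).two_le).trans ?_
  have h2 : 2 ^ n.primeFactors.card ≤ n := by
    calc 2 ^ n.primeFactors.card = ∏ p ∈ n.primeFactors, 2 := by rw [prod_const]
      _ ≤ ∏ p ∈ n.primeFactors, p :=
          prod_le_prod' fun p hp => (Nat.prime_of_mem_primeFactors hp).two_le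
      _ ≤ n := Nat.le_of_dvd hn (Nat.prod_primeFactors_dvd n)
  have h3 : (n.primeFactors.card : ℝ) * Real.log 2 ≤ Real.log n := by
    rw [← Real.log_pow]
    apply Real.log_le_log (by positivity)
    exact_mod_cast h2
  have h4 : (1 : ℝ) / 2 ≤ Real.log 2 := by
    have := Real.log_two_gt_d9
    linarith
  have h5 : (0 : ℝ) ≤ n.primeFactors.card := Nat.cast_nonneg _
  have h6 : (0 : ℝ) ≤ Real.log n := Real.log_natCast_nonneg n
  nlinarith

theorem sum_inv_totient {Q : ℕ} (hQ : 1 ≤ Q) :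
    ∑ k ∈ Icc 1 Q, 1 / (k.totient : ℝ) ≤ 3 * (1 + Real.log Q) ^ 2 := by
  have hQ0 : (0 : ℝ) < Q := by exact_mod_cast hQ
  have hl : 0 ≤ Real.log Q := Real.log_natCast_nonneg Q
  have h1 : ∀ k ∈ Icc 1 Q, 1 / (k.totient : ℝ) ≤ 3 * (1 + Real.log Q) * (k : ℝ)⁻¹ := by
    intro k hk
    rw [mem_Icc] at hk
    have hk0 : (0 : ℝ) < k := by exact_mod_cast hk.1
    have h2 := frac_le hk.1
    have h3 : Real.log k ≤ Real.log Q := Real.log_le_log hk0 (by exact_mod_cast hk.2)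
    calc 1 / (k.totient : ℝ) = (k : ℝ) / k.totient * (k : ℝ)⁻¹ := by field_simp
      _ ≤ _ := mul_le_mul_of_nonneg_right (by linarith) (by positivity)
  refine (sum_le_sum h1).trans ?_
  rw [← mul_sum]
  have h2 : ∑ k ∈ Icc 1 Q, (k : ℝ)⁻¹ ≤ 1 + Real.log Q := by
    have h3 := harmonic_le_one_add_log Q
    rw [harmonic_eq_sum_Icc] at h3
    push_cast at h3
    exact h3
  calc 3 * (1 + Real.log Q) * ∑ k ∈ Icc 1 Q, (k : ℝ)⁻¹
      ≤ 3 * (1 + Real.log Q) * (1 + Real.log Q) := mul_le_mul_of_nonneg_left h2 (by positivity)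
    _ = _ := by ring

theorem th_nonneg (n : ℕ) : 0 ≤ th n := by
  unfold th
  split_ifs
  · exact Real.log_natCast_nonneg n
  · exact le_rfl

theorem nc_le {q : ℕ} (hq : 1 ≤ q) (M : ℕ) :
    ∑ m ∈ (Icc 1 M).filter (fun m => ¬ m.Coprime q), th m ≤ Real.log q := by
  unfold th
  rw [← Finset.sum_filter]
  have h1 : ((Icc 1 M).filter (fun m => ¬ m.Coprime q)).filter Nat.Prime ⊆ q.primeFactors := by
    intro p hp
    rw [mem_filter, mem_filter] at hp
    have h2 : p ∣ q := by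
      by_contra h
      exact hp.1.2 ((Nat.Prime.coprime_iff_not_dvd hp.2).mpr h)
    exact Nat.mem_primeFactors.mpr ⟨hp.2, h2, by omega⟩
  refine (Finset.sum_le_sum_of_subset_of_nonneg h1 fun p _ _ => Real.log_natCast_nonneg p).trans ?_
  rw [← Real.log_prod (fun p hp => by
    exact_mod_cast (Nat.prime_of_mem_primeFactors hp).ne_zero)]
  apply Real.log_le_log
  · exact prod_pos fun p hp => by exact_mod_cast (Nat.prime_of_mem_primeFactors hp).pos
  · have h7 := Nat.le_of_dvd hq (Nat.prod_primeFactors_dvd q)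
    rw [← Nat.cast_prod]
    exact Nat.cast_le.mpr h7

theorem norm_e (x : ℝ) : ‖e x‖ = 1 := by
  unfold e
  have h : (2 * (Real.pi : ℂ) * (x : ℂ) * Complex.I) = ((2 * Real.pi * x : ℝ) : ℂ) * Complex.I := by
    push_cast
    ring
  rw [h, Complex.norm_exp_ofReal_mul_I]

theorem norm_G {a q : ℕ} (hq : 1 ≤ q) : ‖G a q / q‖ ≤ 1 := by
  have hq0 : (0 : ℝ) < q := by exact_mod_cast hq
  rw [norm_div, Complex.norm_natCast, div_le_one hq0]
  unfold G
  refine (norm_sum_le _ _).trans ?_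
  simp_rw [norm_e]
  simp

theorem norm_mt {q : ℕ} (A : ℕ) (hq : 1 ≤ q) : ‖(mt q A : ℂ)‖ ≤ 1 := by
  rw [← cc_one (by omega) 1]
  refine (norm_cc one_pos (by omega) (Nat.coprime_one_left q) _).trans ?_
  have h1 : (1 : ℝ) ≤ q.totient := by exact_mod_cast Nat.totient_pos.mpr hq
  rw [Nat.totient_one, Nat.cast_one, div_one, one_mul, div_le_one (by linarith)]
  exact h1

/-- splitting off the `m` which are not coprime to `q` -/
theorem split_nc (q M : ℕ) (w : ℕ → ℂ) (hw : ∀ m, ‖w m‖ ≤ 1) (hq : 1 ≤ q) :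
    ‖∑ m ∈ Icc 1 M, (th m : ℂ) * w m -
      ∑ m ∈ (Icc 1 M).filter (fun m => m.Coprime q), (th m : ℂ) * w m‖ ≤ Real.log q := by
  rw [← Finset.sum_filter_add_sum_filter_not (Icc 1 M) (fun m => m.Coprime q), add_sub_cancel_left]
  refine (norm_sum_le _ _).trans (le_trans (sum_le_sum fun m _ => ?_) (nc_le hq M))
  rw [norm_mul, Complex.norm_real, Real.norm_eq_abs, abs_of_nonneg (th_nonneg m)]
  exact mul_le_of_le_one_right (th_nonneg m) (hw m)

theorem card_pr {r : ℕ} (hr : 0 < r) : ((pr r).card : ℝ) ≤ r.totient := by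
  have : NeZero r := ⟨hr.ne'⟩
  have h1 : (pr r).card ≤ Fintype.card (DirichletCharacter ℂ r) := Finset.card_le_univ _
  have h2 : Fintype.card (DirichletCharacter ℂ r) = r.totient := by
    rw [← Nat.card_eq_fintype_card]
    exact DirichletCharacter.card_eq_totient_of_hasEnoughRootsOfUnity ℂ r
  rw [h2] at h1
  exact_mod_cast h1

theorem one_q (hCQ : S_CQ) (M A : ℕ) {q : ℕ} (hq : 1 ≤ q) :
    ‖∑ a ∈ rr q, G a q / q * e ((a : ℝ) * A / q) *
        ∑ m ∈ Icc 1 M, (th m : ℂ) * e (-((a : ℝ) * m / q)) -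
      (mt q A : ℂ) * ∑ m ∈ Icc 1 M, (th m : ℂ)‖ ≤
    ∑ r ∈ q.divisors.filter (fun r => r ≠ 1 ∧ r.Coprime (q / r)),
      ((r : ℝ) / r.totient) * (1 / ((q / r).totient : ℝ)) *
        ∑ ψ ∈ pr r, ‖∑ m ∈ Icc 1 M, (th m : ℂ) * ψ (m : ZMod r)‖ + 3 * (q : ℝ) ^ 3 := by
  have hq1 : (1 : ℝ) ≤ q := by exact_mod_cast hq
  have hlog : Real.log q ≤ q := (Real.log_le_sub_one_of_pos (by linarith)).trans (by linarith)
  have hl0 : 0 ≤ Real.log q := Real.log_natCast_nonneg q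
  obtain ⟨S, hS⟩ : ∃ S, S = (Icc 1 M).filter (fun m => m.Coprime q) := ⟨_, rfl⟩
  have h1 := hCQ q A hq S (fun m => (th m : ℂ)) fun m hm => by
    rw [hS, mem_filter] at hm
    exact hm.2
  -- first difference
  have d1 : ‖∑ a ∈ rr q, G a q / q * e ((a : ℝ) * A / q) *
        ∑ m ∈ Icc 1 M, (th m : ℂ) * e (-((a : ℝ) * m / q)) -
      ∑ a ∈ rr q, G a q / q * e ((a : ℝ) * A / q) *
        ∑ m ∈ S, (th m : ℂ) * e (-((a : ℝ) * m / q))‖ ≤ q * Real.log q := by
    rw [← Finset.sum_sub_distrib]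
    refine (norm_sum_le _ _).trans ?_
    have h2 : ∀ a ∈ rr q, ‖G a q / q * e ((a : ℝ) * A / q) *
        ∑ m ∈ Icc 1 M, (th m : ℂ) * e (-((a : ℝ) * m / q)) - G a q / q * e ((a : ℝ) * A / q) *
        ∑ m ∈ S, (th m : ℂ) * e (-((a : ℝ) * m / q))‖ ≤ Real.log q := by
      intro a _
      rw [← mul_sub, norm_mul, norm_mul, norm_e, mul_one]
      refine (mul_le_mul (norm_G hq) ?_ (norm_nonneg _) zero_le_one).trans (le_of_eq (one_mul _))
      rw [hS]
      exact split_nc q M (fun m => e (-((a : ℝ) * m / q))) (fun m => (norm_e _).le) hq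
    refine (sum_le_sum h2).trans ?_
    rw [sum_const, nsmul_eq_mul]
    refine mul_le_mul_of_nonneg_right ?_ hl0
    unfold rr
    have h3 := Finset.card_filter_le (range q) (fun a => a.Coprime q)
    rw [card_range] at h3
    exact_mod_cast h3
  -- second difference
  have d2 : ‖(mt q A : ℂ) * ∑ m ∈ Icc 1 M, (th m : ℂ) - (mt q A : ℂ) * ∑ m ∈ S, (th m : ℂ)‖ ≤
      Real.log q := by
    rw [← mul_sub, norm_mul]
    refine (mul_le_mul (norm_mt A hq) ?_ (norm_nonneg _) zero_le_one).trans (le_of_eq (one_mul _))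
    rw [hS]
    have h2 := split_nc q M (fun _ => 1) (fun m => by simp) hq
    simpa using h2
  -- the characters
  have d3 : ∑ r ∈ q.divisors.filter (fun r => r ≠ 1 ∧ r.Coprime (q / r)),
      ((r : ℝ) / r.totient) * (1 / ((q / r).totient : ℝ)) *
        ∑ ψ ∈ pr r, ‖∑ m ∈ S, (th m : ℂ) * ψ (m : ZMod r)‖ ≤
      ∑ r ∈ q.divisors.filter (fun r => r ≠ 1 ∧ r.Coprime (q / r)),
        ((r : ℝ) / r.totient) * (1 / ((q / r).totient : ℝ)) *
          ∑ ψ ∈ pr r, ‖∑ m ∈ Icc 1 M, (th m : ℂ) * ψ (m : ZMod r)‖ + q * (q * Real.log q) := by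
    have h2 : ∀ r ∈ q.divisors.filter (fun r => r ≠ 1 ∧ r.Coprime (q / r)),
        ((r : ℝ) / r.totient) * (1 / ((q / r).totient : ℝ)) *
          ∑ ψ ∈ pr r, ‖∑ m ∈ S, (th m : ℂ) * ψ (m : ZMod r)‖ ≤
        ((r : ℝ) / r.totient) * (1 / ((q / r).totient : ℝ)) *
          ∑ ψ ∈ pr r, ‖∑ m ∈ Icc 1 M, (th m : ℂ) * ψ (m : ZMod r)‖ + q * Real.log q := by
      intro r hr
      rw [mem_filter, Nat.mem_divisors] at hr
      have hr0 : 0 < r := Nat.pos_of_dvd_of_pos hr.1.1 hq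
      have hk0 : 0 < q / r := Nat.div_pos (Nat.le_of_dvd hq hr.1.1) hr0
      have hφ : (0 : ℝ) < r.totient := by exact_mod_cast Nat.totient_pos.mpr hr0
      have hφk : (1 : ℝ) ≤ (q / r).totient := by exact_mod_cast Nat.totient_pos.mpr hk0
      have h3 : ∑ ψ ∈ pr r, ‖∑ m ∈ S, (th m : ℂ) * ψ (m : ZMod r)‖ ≤
          ∑ ψ ∈ pr r, ‖∑ m ∈ Icc 1 M, (th m : ℂ) * ψ (m : ZMod r)‖ + r.totient * Real.log q := by
        have h4 : ∀ ψ ∈ pr r, ‖∑ m ∈ S, (th m : ℂ) * ψ (m : ZMod r)‖ ≤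
            ‖∑ m ∈ Icc 1 M, (th m : ℂ) * ψ (m : ZMod r)‖ + Real.log q := by
          intro ψ _
          have h5 := split_nc q M (fun m => ψ (m : ZMod r))
            (fun m => DirichletCharacter.norm_le_one ψ _) hq
          rw [← hS] at h5
          have h6 := norm_sub_norm_le (∑ m ∈ S, (th m : ℂ) * ψ (m : ZMod r))
            (∑ m ∈ Icc 1 M, (th m : ℂ) * ψ (m : ZMod r))
          rw [norm_sub_rev] at h6
          linarith
        refine (sum_le_sum h4).trans ?_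
        rw [sum_add_distrib, sum_const, nsmul_eq_mul]
        have h7 := mul_le_mul_of_nonneg_right (card_pr hr0) hl0
        linarith
      have h8 : ((r : ℝ) / r.totient) * (1 / ((q / r).totient : ℝ)) * (r.totient * Real.log q) ≤
          q * Real.log q := by
        have h9 : ((r : ℝ) / r.totient) * (1 / ((q / r).totient : ℝ)) * (r.totient * Real.log q) =
            r * (1 / ((q / r).totient : ℝ)) * Real.log q := by
          field_simp
        rw [h9]
        refine mul_le_mul_of_nonneg_right ?_ hl0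
        have h10 : (1 / ((q / r).totient : ℝ)) ≤ 1 := by
          rw [div_le_one (by linarith)]
          exact hφk
        have h11 : (r : ℝ) ≤ q := by exact_mod_cast Nat.le_of_dvd hq hr.1.1
        calc (r : ℝ) * (1 / ((q / r).totient : ℝ)) ≤ r * 1 :=
              mul_le_mul_of_nonneg_left h10 (Nat.cast_nonneg r)
          _ ≤ q := by linarith
      have h12 := mul_le_mul_of_nonneg_left h3
        (by positivity : 0 ≤ ((r : ℝ) / r.totient) * (1 / ((q / r).totient : ℝ)))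
      rw [mul_add] at h12
      linarith
    refine (sum_le_sum h2).trans ?_
    rw [sum_add_distrib, sum_const, nsmul_eq_mul]
    have h13 : ((q.divisors.filter (fun r => r ≠ 1 ∧ r.Coprime (q / r))).card : ℝ) ≤ q := by
      have h14 := (Finset.card_filter_le q.divisors (fun r => r ≠ 1 ∧ r.Coprime (q / r))).trans
        (Nat.card_divisors_le_self q)
      exact_mod_cast h14
    have h15 : 0 ≤ (q : ℝ) * Real.log q := by positivity
    have h16 := mul_le_mul_of_nonneg_right h13 h15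
    linarith
  have d4 : ‖∑ a ∈ rr q, G a q / q * e ((a : ℝ) * A / q) *
        ∑ m ∈ S, (th m : ℂ) * e (-((a : ℝ) * m / q)) - (mt q A : ℂ) * ∑ m ∈ S, (th m : ℂ)‖ ≤
      ∑ r ∈ q.divisors.filter (fun r => r ≠ 1 ∧ r.Coprime (q / r)),
      ((r : ℝ) / r.totient) * (1 / ((q / r).totient : ℝ)) *
        ∑ ψ ∈ pr r, ‖∑ m ∈ S, (th m : ℂ) * ψ (m : ZMod r)‖ := h1
  have d5 : ‖∑ a ∈ rr q, G a q / q * e ((a : ℝ) * A / q) *
        ∑ m ∈ Icc 1 M, (th m : ℂ) * e (-((a : ℝ) * m / q)) -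
      (mt q A : ℂ) * ∑ m ∈ Icc 1 M, (th m : ℂ)‖ ≤
      q * Real.log q + Real.log q + ∑ r ∈ q.divisors.filter (fun r => r ≠ 1 ∧ r.Coprime (q / r)),
      ((r : ℝ) / r.totient) * (1 / ((q / r).totient : ℝ)) *
        ∑ ψ ∈ pr r, ‖∑ m ∈ S, (th m : ℂ) * ψ (m : ZMod r)‖ := by
    have e1 : ∀ a b c d : ℂ, a - b = (a - c) + (c - d) - (b - d) := fun a b c d => by ring
    rw [e1 _ _ (∑ a ∈ rr q, G a q / q * e ((a : ℝ) * A / q) *
        ∑ m ∈ S, (th m : ℂ) * e (-((a : ℝ) * m / q))) ((mt q A : ℂ) * ∑ m ∈ S, (th m : ℂ))]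
    refine (norm_sub_le _ _).trans ?_
    have h2 := norm_add_le (∑ a ∈ rr q, G a q / q * e ((a : ℝ) * A / q) *
        ∑ m ∈ Icc 1 M, (th m : ℂ) * e (-((a : ℝ) * m / q)) -
      ∑ a ∈ rr q, G a q / q * e ((a : ℝ) * A / q) *
        ∑ m ∈ S, (th m : ℂ) * e (-((a : ℝ) * m / q)))
      (∑ a ∈ rr q, G a q / q * e ((a : ℝ) * A / q) *
        ∑ m ∈ S, (th m : ℂ) * e (-((a : ℝ) * m / q)) - (mt q A : ℂ) * ∑ m ∈ S, (th m : ℂ))
    linarith
  refine d5.trans ?_
  have c1 : (q : ℝ) * Real.log q ≤ q ^ 3 := by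
    have h2 := mul_le_mul_of_nonneg_left hlog (by linarith : (0 : ℝ) ≤ q)
    have h3 : (q : ℝ) ^ 2 ≤ q ^ 3 := pow_le_pow_right₀ hq1 (by norm_num)
    nlinarith
  have c2 : Real.log q ≤ (q : ℝ) ^ 3 := by
    have h2 : (q : ℝ) ≤ q ^ 3 := le_self_pow₀ hq1 (by norm_num)
    linarith
  have c3 : (q : ℝ) * (q * Real.log q) ≤ q ^ 3 := by
    have h2 := mul_le_mul_of_nonneg_left hlog (by positivity : (0 : ℝ) ≤ (q : ℝ) * q)
    calc (q : ℝ) * (q * Real.log q) = q * q * Real.log q := by ring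
      _ ≤ q * q * q := h2
      _ = q ^ 3 := by ring
  linarith

/-- **CS.** -/
theorem cs (hCQ : S_CQ) : S_CS := by
  refine ⟨9, by norm_num, 3, fun Q M A hQ => ?_⟩
  have hQ1 : (1 : ℝ) ≤ Q := by exact_mod_cast hQ
  have hl : 0 ≤ Real.log Q := Real.log_natCast_nonneg Q
  obtain ⟨Y, hY⟩ : ∃ Y : ℕ → ℝ, ∀ r, Y r =
    ∑ ψ ∈ pr r, ‖∑ m ∈ Icc 1 M, (th m : ℂ) * ψ (m : ZMod r)‖ := ⟨_, fun _ => rfl⟩
  have hY0 : ∀ r, 0 ≤ Y r := fun r => by
    rw [hY]
    exact sum_nonneg fun ψ _ => norm_nonneg _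
  obtain ⟨f, hf⟩ : ∃ f : ℕ → ℕ → ℝ, ∀ r k, f r k =
    ((r : ℝ) / r.totient) * (1 / (k.totient : ℝ)) * Y r := ⟨_, fun _ _ => rfl⟩
  have hf0 : ∀ r k, 0 ≤ f r k := fun r k => by
    rw [hf]
    exact mul_nonneg (by positivity) (hY0 r)
  have hs : ((sing Q A : ℝ) : ℂ) = ∑ q ∈ Icc 1 Q, (mt q A : ℂ) := by
    unfold sing mt
    push_cast
    rfl
  rw [hs, sum_mul, ← sum_sub_distrib]
  refine (norm_sum_le _ _).trans ?_
  have h1 : ∀ q ∈ Icc 1 Q, ‖∑ a ∈ rr q, G a q / q * e ((a : ℝ) * A / q) *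
        ∑ m ∈ Icc 1 M, (th m : ℂ) * e (-((a : ℝ) * m / q)) -
      (mt q A : ℂ) * ∑ m ∈ Icc 1 M, (th m : ℂ)‖ ≤
      ∑ r ∈ Icc 2 Q, ∑ k ∈ Icc 1 Q, (if r * k = q then f r k else 0) + 3 * (Q : ℝ) ^ 3 := by
    intro q hq
    rw [mem_Icc] at hq
    have hqQ : (q : ℝ) ≤ Q := by exact_mod_cast hq.2
    have h2 := one_q hCQ M A hq.1
    have h3 : ∑ r ∈ q.divisors.filter (fun r => r ≠ 1 ∧ r.Coprime (q / r)),
      ((r : ℝ) / r.totient) * (1 / ((q / r).totient : ℝ)) *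
        ∑ ψ ∈ pr r, ‖∑ m ∈ Icc 1 M, (th m : ℂ) * ψ (m : ZMod r)‖ ≤
        ∑ r ∈ Icc 2 Q, ∑ k ∈ Icc 1 Q, (if r * k = q then f r k else 0) := by
      have hsub : q.divisors.filter (fun r => r ≠ 1 ∧ r.Coprime (q / r)) ⊆ Icc 2 Q := by
        intro r hr
        rw [mem_filter, Nat.mem_divisors] at hr
        have hr0 : 0 < r := Nat.pos_of_dvd_of_pos hr.1.1 (by omega)
        have hrq := Nat.le_of_dvd (by omega) hr.1.1
        rw [mem_Icc]
        have := hr.2.1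
        omega
      refine le_trans (sum_le_sum fun r hr => ?_) (sum_le_sum_of_subset_of_nonneg hsub
        fun r _ _ => sum_nonneg fun k _ => ?_)
      · rw [mem_filter, Nat.mem_divisors] at hr
        have hr0 : 0 < r := Nat.pos_of_dvd_of_pos hr.1.1 (by omega)
        have hrq := Nat.le_of_dvd (by omega) hr.1.1
        have hk : q / r ∈ Icc 1 Q := by
          rw [mem_Icc]
          exact ⟨Nat.div_pos hrq hr0, (Nat.div_le_self q r).trans hq.2⟩
        have h4 := Finset.single_le_sum (f := fun k => if r * k = q then f r k else 0)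
          (fun k _ => by
            change 0 ≤ (if r * k = q then f r k else 0)
            split_ifs
            · exact hf0 r k
            · exact le_rfl) hk
        have h5 : r * (q / r) = q := Nat.mul_div_cancel' hr.1.1
        rw [if_pos h5, hf, hY] at h4
        exact h4
      · split_ifs
        · exact hf0 r k
        · exact le_rfl
    have h4 : 3 * (q : ℝ) ^ 3 ≤ 3 * (Q : ℝ) ^ 3 := by gcongr
    linarith
  refine (sum_le_sum h1).trans ?_
  rw [sum_add_distrib, sum_const, nsmul_eq_mul, Nat.card_Icc, Nat.add_sub_cancel]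
  have h2 : ∑ q ∈ Icc 1 Q, ∑ r ∈ Icc 2 Q, ∑ k ∈ Icc 1 Q, (if r * k = q then f r k else 0) ≤
      ∑ r ∈ Icc 2 Q, ∑ k ∈ Icc 1 Q, f r k := by
    rw [sum_comm]
    refine sum_le_sum fun r _ => ?_
    rw [sum_comm]
    refine sum_le_sum fun k _ => ?_
    rw [Finset.sum_ite_eq]
    split_ifs
    · exact le_rfl
    · exact hf0 r k
  have h3 : ∑ r ∈ Icc 2 Q, ∑ k ∈ Icc 1 Q, f r k ≤
      9 * (1 + Real.log Q) ^ 3 * ∑ r ∈ Icc 2 Q, Y r := by
    rw [mul_sum]
    refine sum_le_sum fun r hr => ?_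
    rw [mem_Icc] at hr
    have hr0 : (0 : ℝ) < r := by exact_mod_cast (by omega : 0 < r)
    have e1 : ∑ k ∈ Icc 1 Q, f r k = ((r : ℝ) / r.totient) *
        (∑ k ∈ Icc 1 Q, 1 / (k.totient : ℝ)) * Y r := by
      simp_rw [hf]
      rw [mul_sum, sum_mul]
    rw [e1]
    refine mul_le_mul_of_nonneg_right ?_ (hY0 r)
    have h4 := frac_le (n := r) (by omega)
    have h5 : Real.log r ≤ Real.log Q := Real.log_le_log hr0 (by exact_mod_cast hr.2)
    have h6 := sum_inv_totient hQ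
    calc ((r : ℝ) / r.totient) * (∑ k ∈ Icc 1 Q, 1 / (k.totient : ℝ)) ≤
          (3 * (1 + Real.log Q)) * (3 * (1 + Real.log Q) ^ 2) :=
          mul_le_mul (by linarith) h6 (sum_nonneg fun k _ => by positivity) (by positivity)
      _ = _ := by ring
  have h4 : (Q : ℝ) * (3 * (Q : ℝ) ^ 3) ≤ 9 * (Q : ℝ) ^ 5 := by
    have h5 : (Q : ℝ) ^ 4 ≤ (Q : ℝ) ^ 5 := pow_le_pow_right₀ hQ1 (by norm_num)
    have h6 : 0 ≤ (Q : ℝ) ^ 5 := by positivity
    calc (Q : ℝ) * (3 * (Q : ℝ) ^ 3) = 3 * (Q : ℝ) ^ 4 := by ring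
      _ ≤ _ := by linarith
  simp_rw [← hY]
  linarith

end Pool.Agent.P8H89.CF
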