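import Pool.Agent.P8H89.CF.Ram

/-!
# CF/CQ, second part: characters
-/

set_option autoImplicit false

namespace Pool.Agent.P8H89.CF

open Finset Pool.Agent.P8H14.CF

/-- the sum of the values of the character at the values of the polynomial prime to `n` -/
noncomputable def SS {r : ℕ} (A : ℕ) (ψ : DirichletCharacter ℂ r) (n : ℕ) : ℂ :=
  ∑ b ∈ range n, if (F b + A).Coprime n then ψ ((F b + A : ℕ) : ZMod r) else 0

theorem mem_pr {r : ℕ} {ψ : DirichletCharacter ℂ r} : ψ ∈ pr r ↔ ψ.IsPrimitive := by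
  unfold pr
  simp

theorem sum_char {d : ℕ} [NeZero d] (w : DirichletCharacter ℂ d → ℂ)
    (W : (r : ℕ) → DirichletCharacter ℂ r → ℂ)
    (hW : ∀ r (h : r ∣ d) (ψ : DirichletCharacter ℂ r),
      w (DirichletCharacter.changeLevel h ψ) = W r ψ) :
    ∑ χ : DirichletCharacter ℂ d, w χ = ∑ r ∈ d.divisors, ∑ ψ ∈ pr r, W r ψ := by
  classical
  have h1 : ∀ χ ∈ (univ : Finset (DirichletCharacter ℂ d)), χ.conductor ∈ d.divisors := by
    intro χ _
    exact Nat.mem_divisors.mpr ⟨χ.conductor_dvd_level, NeZero.ne d⟩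
  rw [← sum_fiberwise_of_maps_to h1]
  refine sum_congr rfl fun f hf => ?_
  have hfd := Nat.dvd_of_mem_divisors hf
  have h2 : (univ : Finset (DirichletCharacter ℂ d)).filter (fun χ => χ.conductor = f) =
      (pr f).image (DirichletCharacter.changeLevel hfd) := by
    ext χ
    rw [mem_filter, mem_image]
    constructor
    · rintro ⟨_, hc⟩
      subst hc
      exact ⟨χ.primitiveCharacter, mem_pr.2 χ.primitiveCharacter_isPrimitive,
        χ.changeLevel_primitiveCharacter⟩
    · rintro ⟨ψ, hψ, rfl⟩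
      refine ⟨mem_univ _, ?_⟩
      rw [DirichletCharacter.conductor_changeLevel]
      exact mem_pr.1 hψ
  rw [h2, sum_image]
  · exact sum_congr rfl fun ψ _ => hW f hfd ψ
  · intro x _ y _ hxy
    exact DirichletCharacter.changeLevel_injective hfd hxy

theorem cl_val {r d : ℕ} (h : r ∣ d) (ψ : DirichletCharacter ℂ r) {x : ℕ}
    (hx : x.Coprime d) :
    DirichletCharacter.changeLevel h ψ (x : ZMod d) = ψ (x : ZMod r) := by
  have h1 := DirichletCharacter.changeLevel_eq_cast_of_dvd' ψ h (a := (x : ℤ))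
    (Nat.isCoprime_iff_coprime.mpr hx)
  simpa using h1

theorem cl_zero {r d : ℕ} (h : r ∣ d) (ψ : DirichletCharacter ℂ r) {x : ℕ}
    (hx : ¬ x.Coprime d) :
    DirichletCharacter.changeLevel h ψ (x : ZMod d) = 0 :=
  MulChar.map_nonunit _ (by rwa [ZMod.isUnit_iff_coprime])

theorem NN_char {d m A : ℕ} [NeZero d] (hm : m.Coprime d) :
    (NN (fun b => ((F b + A : ℕ) : ℤ) - m) d : ℂ) =
      1 / (d.totient : ℂ) * ∑ r ∈ d.divisors, ∑ ψ ∈ pr r, (ψ (m : ZMod r))⁻¹ * SS A ψ d := by
  have hφ : (d.totient : ℂ) ≠ 0 := by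
    exact_mod_cast (Nat.totient_pos.mpr (Nat.pos_of_ne_zero (NeZero.ne d))).ne'
  have hu : IsUnit (m : ZMod d) := (ZMod.isUnit_iff_coprime m d).mpr hm
  have h1 : (NN (fun b => ((F b + A : ℕ) : ℤ) - m) d : ℂ) =
      ∑ b ∈ range d, 1 / (d.totient : ℂ) * ∑ χ : DirichletCharacter ℂ d,
        χ (m : ZMod d)⁻¹ * χ ((F b + A : ℕ) : ZMod d) := by
    unfold NN
    rw [Finset.card_filter]
    simp only [Nat.cast_sum, Nat.cast_ite, Nat.cast_one, Nat.cast_zero]
    refine sum_congr rfl fun b _ => ?_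
    rw [DirichletCharacter.sum_char_inv_mul_char_eq ℂ hu]
    have h2 : ((d : ℤ) ∣ (((F b + A : ℕ) : ℤ) - m)) ↔ ((m : ZMod d) = ((F b + A : ℕ) : ZMod d)) := by
      have h3 := ZMod.intCast_eq_intCast_iff_dvd_sub (m : ℤ) ((F b + A : ℕ) : ℤ) d
      rw [← h3, Int.cast_natCast, Int.cast_natCast]
    by_cases h4 : (m : ZMod d) = ((F b + A : ℕ) : ZMod d)
    · rw [if_pos h4, if_pos (h2.mpr h4), one_div, inv_mul_cancel₀ hφ]
    · rw [if_neg h4, if_neg (fun h => h4 (h2.mp h)), mul_zero]
  rw [h1, ← mul_sum, sum_comm]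
  congr 1
  refine sum_char _ (fun r ψ => (ψ (m : ZMod r))⁻¹ * SS A ψ d) fun r h ψ => ?_
  rw [← mul_sum]
  have e1 : DirichletCharacter.changeLevel h ψ (m : ZMod d)⁻¹ = (ψ (m : ZMod r))⁻¹ := by
    rw [← cl_val h ψ hm]
    apply eq_inv_of_mul_eq_one_left
    rw [← map_mul, ZMod.inv_mul_of_unit _ hu, map_one]
  rw [e1]
  congr 1
  unfold SS
  refine sum_congr rfl fun b _ => ?_
  split_ifs with hc
  · exact cl_val h ψ hc
  · exact cl_zero h ψ hc

theorem F_add (b n : ℕ) : F (b + n) = F b + n * (2 * b + n + 1) := by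
  unfold F
  ring

theorem per_f {r n A : ℕ} (hr : r ∣ n) (ψ : DirichletCharacter ℂ r) (b : ℕ) :
    (if (F (b + n) + A).Coprime n then ψ ((F (b + n) + A : ℕ) : ZMod r) else 0) =
      if (F b + A).Coprime n then ψ ((F b + A : ℕ) : ZMod r) else 0 := by
  have e1 : F (b + n) + A = F b + A + n * (2 * b + n + 1) := by
    rw [F_add]
    ring
  have e2 : ((F (b + n) + A : ℕ) : ZMod r) = ((F b + A : ℕ) : ZMod r) := by
    rw [e1]
    push_cast
    rw [(ZMod.natCast_eq_zero_iff n r).mpr hr]
    ring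
  have e3 : (F (b + n) + A).Coprime n ↔ (F b + A).Coprime n := by
    rw [e1]
    exact Nat.coprime_add_mul_left_left _ _ _
  rw [e2]
  simp only [e3]

theorem sum_crt {m n : ℕ} (h : m.Coprime n) {f g : ℕ → ℂ}
    (hf : ∀ b, f (b + m) = f b) (hg : ∀ b, g (b + n) = g b) :
    ∑ b ∈ range (m * n), f b * g b = (∑ b ∈ range m, f b) * ∑ b ∈ range n, g b := by
  classical
  rw [Finset.sum_mul_sum, ← Finset.sum_product']
  symm
  have hinj : Set.InjOn (fun b : ℕ => (b % m, b % n)) (range (m * n) : Set ℕ) := by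
    intro a ha b hb hab
    rw [Finset.mem_coe, mem_range] at ha hb
    have h1 := Prod.mk.inj hab
    have h2 : a ≡ b [MOD m * n] := (Nat.modEq_and_modEq_iff_modEq_mul h).mp ⟨h1.1, h1.2⟩
    exact Nat.ModEq.eq_of_lt_of_lt h2 ha hb
  have himg : (range (m * n)).image (fun b : ℕ => (b % m, b % n)) = range m ×ˢ range n := by
    apply Finset.eq_of_subset_of_card_le
    · intro x hx
      rw [mem_image] at hx
      obtain ⟨b, hb, rfl⟩ := hx
      rw [mem_range] at hb
      have hm : 0 < m := Nat.pos_of_ne_zero fun h0 => by simp [h0] at hb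
      have hn : 0 < n := Nat.pos_of_ne_zero fun h0 => by simp [h0] at hb
      rw [mem_product, mem_range, mem_range]
      exact ⟨Nat.mod_lt _ hm, Nat.mod_lt _ hn⟩
    · rw [card_image_of_injOn hinj, card_product, card_range, card_range, card_range]
  rw [← himg, sum_image hinj]
  refine sum_congr rfl fun b _ => ?_
  have e1 : f (b % m) = f b := Function.Periodic.map_mod_nat hf b
  have e2 : g (b % n) = g b := Function.Periodic.map_mod_nat hg b
  rw [e1, e2]

theorem SS_dvd {r n p A : ℕ} (hr : r ∣ n) (ψ : DirichletCharacter ℂ r) (hp : p ∣ n) :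
    SS A ψ (p * n) = p * SS A ψ n := by
  have e1 : SS A ψ (p * n) = ∑ b ∈ range (n * p),
      if (F b + A).Coprime n then ψ ((F b + A : ℕ) : ZMod r) else 0 := by
    unfold SS
    rw [mul_comm p n]
    refine sum_congr rfl fun b _ => ?_
    have h1 : (F b + A).Coprime (n * p) ↔ (F b + A).Coprime n := by
      rw [Nat.coprime_mul_iff_right]
      exact ⟨fun h => h.1, fun h => ⟨h, h.coprime_dvd_right hp⟩⟩
    simp only [h1]
  rw [e1, sum_periodic (per_f hr ψ)]
  rfl

theorem SS_cop {r n p A : ℕ} (hr : r ∣ n) (ψ : DirichletCharacter ℂ r) (hp : p.Prime)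
    (hpn : ¬ p ∣ n) : SS A ψ (p * n) = ((p : ℂ) - rho A p) * SS A ψ n := by
  have hc : n.Coprime p := ((Nat.Prime.coprime_iff_not_dvd hp).mpr hpn).symm
  have e1 : SS A ψ (p * n) = ∑ b ∈ range (n * p),
      (if (F b + A).Coprime n then ψ ((F b + A : ℕ) : ZMod r) else 0) *
        (if (F b + A).Coprime p then 1 else 0) := by
    unfold SS
    rw [mul_comm p n]
    refine sum_congr rfl fun b _ => ?_
    simp only [Nat.coprime_mul_iff_right]
    by_cases h1 : (F b + A).Coprime n
    · by_cases h2 : (F b + A).Coprime p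
      · rw [if_pos (And.intro h1 h2), if_pos h1, if_pos h2, mul_one]
      · rw [if_neg (fun h => h2 h.2), if_neg h2, mul_zero]
    · rw [if_neg (fun h => h1 h.1), if_neg h1, zero_mul]
  rw [e1, sum_crt hc (per_f hr ψ)]
  · rw [mul_comm]
    congr 1
    have h2 : ∀ b, (F b + A).Coprime p ↔ ¬ p ∣ F b + A := fun b => by
      rw [Nat.coprime_comm, Nat.Prime.coprime_iff_not_dvd hp]
    simp only [h2]
    have h3 : ∀ b, (if ¬ p ∣ F b + A then (1 : ℂ) else 0) = 1 - if p ∣ F b + A then 1 else 0 := by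
      intro b
      split_ifs <;> simp_all
    simp_rw [h3]
    rw [Finset.sum_sub_distrib]
    unfold rho
    rw [Finset.card_filter]
    push_cast
    simp
  · intro b
    have e2 : F (b + p) + A = F b + A + p * (2 * b + p + 1) := by
      rw [F_add]
      ring
    have e3 : (F (b + p) + A).Coprime p ↔ (F b + A).Coprime p := by
      rw [e2]
      exact Nat.coprime_add_mul_left_left _ _ _
    simp only [e3]

/-- the local factors -/
noncomputable def ww (r A p : ℕ) : ℂ := if p ∣ r then 1 else ((p : ℂ) - rho A p) / ((p : ℂ) - 1)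

theorem SS_all {r A : ℕ} (hr : 0 < r) (ψ : DirichletCharacter ℂ r) (j : ℕ) : j ≠ 0 →
    SS A ψ (r * j) / ((r * j).totient : ℂ) =
      SS A ψ r / (r.totient : ℂ) * ∏ p ∈ j.primeFactors, ww r A p := by
  induction j using induction_on_primes with
  | zero => exact fun h => absurd rfl h
  | one => simp
  | prime_mul p a hp ih =>
    intro h0
    have ha : a ≠ 0 := fun h => h0 (by rw [h, mul_zero])
    have ih := ih ha
    have hp0 : (p : ℂ) ≠ 0 := by exact_mod_cast hp.ne_zero
    have hra : 0 < r * a := Nat.mul_pos hr (Nat.pos_of_ne_zero ha)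
    have hφ : ((r * a).totient : ℂ) ≠ 0 := by
      exact_mod_cast (Nat.totient_pos.mpr hra).ne'
    have hpf : (p * a).primeFactors = insert p a.primeFactors := by
      rw [Nat.primeFactors_mul hp.ne_zero ha, hp.primeFactors]
      rfl
    rw [show r * (p * a) = p * (r * a) by ring, hpf]
    by_cases hd : p ∣ r * a
    · rw [SS_dvd (dvd_mul_right r a) ψ hd, Nat.totient_mul_of_prime_of_dvd hp hd]
      push_cast
      rw [mul_div_mul_left _ _ hp0, ih]
      congr 1
      by_cases hpa : p ∈ a.primeFactors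
      · rw [insert_eq_of_mem hpa]
      · rw [prod_insert hpa]
        have h2 : ¬ p ∣ a := fun h => hpa (Nat.mem_primeFactors.mpr ⟨hp, h, ha⟩)
        have h3 : p ∣ r := ((Nat.Prime.dvd_mul hp).mp hd).resolve_right h2
        unfold ww
        rw [if_pos h3, one_mul]
    · have hpa : p ∉ a.primeFactors := fun h => hd (dvd_mul_of_dvd_right
        (Nat.dvd_of_mem_primeFactors h) r)
      have hpr : ¬ p ∣ r := fun h => hd (dvd_mul_of_dvd_left h a)
      have hp1 : ((p : ℂ) - 1) ≠ 0 := by
        have := hp.one_lt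
        have h4 : (p : ℂ) ≠ 1 := by exact_mod_cast this.ne'
        exact sub_ne_zero.mpr h4
      rw [SS_cop (dvd_mul_right r a) ψ hp hd, Nat.totient_mul_of_prime_of_not_dvd hp hd,
        prod_insert hpa]
      push_cast [Nat.cast_sub hp.one_lt.le]
      unfold ww at ih ⊢
      rw [if_neg hpr, mul_div_mul_comm, ih]
      ring

open ArithmeticFunction in
theorem mob_w (w : ℕ → ℂ) {k : ℕ} (hk : k ≠ 0) :
    ∑ j ∈ k.divisors, ((moebius (k / j) : ℤ) : ℂ) * ∏ p ∈ j.primeFactors, w p =
      if Squarefree k then ∏ p ∈ k.primeFactors, (w p - 1) else 0 := by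
  obtain ⟨f, hf⟩ : ∃ f : ArithmeticFunction ℂ,
    f = ((moebius : ArithmeticFunction ℤ) : ArithmeticFunction ℂ) * prodPrimeFactors w := ⟨_, rfl⟩
  have hm : f.IsMultiplicative := by
    rw [hf]
    exact isMultiplicative_moebius.intCast.mul (IsMultiplicative.prodPrimeFactors w)
  have e1 : ∀ n : ℕ, f n = ∑ j ∈ n.divisors, ((moebius (n / j) : ℤ) : ℂ) * prodPrimeFactors w j := by
    intro n
    rw [hf, mul_apply, Nat.sum_divisorsAntidiagonal' (f := fun x y =>
      ((moebius : ArithmeticFunction ℤ) : ArithmeticFunction ℂ) x * prodPrimeFactors w y)]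
    rfl
  have e2 : ∑ j ∈ k.divisors, ((moebius (k / j) : ℤ) : ℂ) * ∏ p ∈ j.primeFactors, w p = f k := by
    rw [e1]
    refine sum_congr rfl fun j hj => ?_
    rw [prodPrimeFactors_apply (Nat.pos_of_mem_divisors hj).ne']
  have e3 : ∀ p : ℕ, p.Prime → ∀ a : ℕ, a ≠ 0 → prodPrimeFactors w (p ^ a) = w p := by
    intro p hp a ha
    rw [prodPrimeFactors_apply (pow_ne_zero _ hp.ne_zero), Nat.primeFactors_pow _ ha,
      hp.primeFactors, prod_singleton]
  have e4 : ∀ p : ℕ, p.Prime → ∀ a : ℕ, f (p ^ (a + 1)) = if a = 0 then w p - 1 else 0 := by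
    intro p hp a
    rw [hf, mul_apply, Nat.sum_divisorsAntidiagonal (f := fun x y =>
      ((moebius : ArithmeticFunction ℤ) : ArithmeticFunction ℂ) x * prodPrimeFactors w y),
      Nat.sum_divisors_prime_pow hp, Finset.sum_range_succ', Finset.sum_range_succ']
    have h1 : ∀ i ∈ range a, ((moebius : ArithmeticFunction ℤ) : ArithmeticFunction ℂ)
        (p ^ (i + 1 + 1)) * prodPrimeFactors w (p ^ (a + 1) / p ^ (i + 1 + 1)) = 0 := by
      intro i _
      rw [intCoe_apply, moebius_apply_prime_pow hp (by omega), if_neg (by omega)]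
      simp
    rw [sum_eq_zero h1, zero_add, zero_add, intCoe_apply, intCoe_apply,
      moebius_apply_prime_pow hp one_ne_zero, if_pos rfl, pow_zero, moebius_apply_one, Nat.div_one,
      e3 p hp _ (Nat.succ_ne_zero a), pow_one, pow_succ, Nat.mul_div_cancel _ hp.pos]
    by_cases ha : a = 0
    · rw [if_pos ha, ha, pow_zero, prodPrimeFactors_apply one_ne_zero]
      simp
      ring
    · rw [if_neg ha, e3 p hp a ha]
      push_cast
      ring
  rw [e2, hm.multiplicative_factorization _ hk, Finsupp.prod, Nat.support_factorization]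
  split_ifs with hs
  · refine prod_congr rfl fun p hp => ?_
    have hp' := Nat.prime_of_mem_primeFactors hp
    have h1 : k.factorization p = 0 + 1 := by
      have h2 := (Nat.squarefree_iff_factorization_le_one hk).mp hs p
      have h3 : 0 < k.factorization p := hp'.factorization_pos_of_dvd hk
        (Nat.dvd_of_mem_primeFactors hp)
      omega
    rw [h1, e4 p hp' 0, if_pos rfl]
  · rw [Nat.squarefree_iff_factorization_le_one hk] at hs
    push Not at hs
    obtain ⟨p, hp⟩ := hs
    have hp1 : p ∈ k.primeFactors := by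
      rw [← Nat.support_factorization, Finsupp.mem_support_iff]
      omega
    apply prod_eq_zero hp1
    obtain ⟨a, ha⟩ : ∃ a, k.factorization p = (a + 1) + 1 := ⟨k.factorization p - 2, by omega⟩
    rw [ha, e4 p (Nat.prime_of_mem_primeFactors hp1) (a + 1), if_neg (Nat.succ_ne_zero a)]

end Pool.Agent.P8H89.CF
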