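import Pool.Agent.P8H89.CF.Chr

/-!
# CF/CQ: from the fractions to the primitive characters
-/

set_option autoImplicit false

namespace Pool.Agent.P8H89.CF

open Finset Pool.Agent.P8H14.CF

theorem rho_le {A p : ℕ} (hp : p.Prime) : rho A p ≤ 2 := by
  by_contra hcon
  have h0 : 2 < rho A p := not_le.mp hcon
  unfold rho at h0
  rw [Finset.two_lt_card] at h0
  obtain ⟨a, ha, b, hb, c, hc, hab, hac, hbc⟩ := h0
  rw [mem_filter, mem_range] at ha hb hc
  have hpz : Prime (p : ℤ) := Nat.prime_iff_prime_int.mp hp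
  have key : ∀ x y : ℕ, x < p → y < p → x ≠ y → ¬ (p : ℤ) ∣ (x : ℤ) - y := by
    intro x y hx hy hne hd
    have h1 : ((x : ℤ) - y) = 0 := by
      apply Int.eq_zero_of_abs_lt_dvd hd
      rw [abs_lt]
      constructor <;> omega
    exact hne (by omega)
  have h2 : ∀ x y : ℕ, x < p → y < p → x ≠ y → p ∣ F x + A → p ∣ F y + A →
      (p : ℤ) ∣ (x : ℤ) + y + 1 := by
    intro x y hx hy hne h3 h4
    have h5 : (p : ℤ) ∣ ((F x + A : ℕ) : ℤ) - ((F y + A : ℕ) : ℤ) :=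
      dvd_sub (Int.natCast_dvd_natCast.mpr h3) (Int.natCast_dvd_natCast.mpr h4)
    have h6 : ((F x + A : ℕ) : ℤ) - ((F y + A : ℕ) : ℤ) = ((x : ℤ) - y) * (x + y + 1) := by
      unfold F
      push_cast
      ring
    rw [h6] at h5
    exact (hpz.dvd_or_dvd h5).resolve_left (key x y hx hy hne)
  have h7 := h2 a b ha.1 hb.1 hab ha.2 hb.2
  have h8 := h2 a c ha.1 hc.1 hac ha.2 hc.2
  apply key b c hb.1 hc.1 hbc
  have h9 := dvd_sub h7 h8
  have e : (a : ℤ) + b + 1 - (a + c + 1) = b - c := by ring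
  rwa [e] at h9

theorem norm_SS {r A : ℕ} (ψ : DirichletCharacter ℂ r) : ‖SS A ψ r‖ ≤ r := by
  unfold SS
  refine (norm_sum_le _ _).trans ?_
  have h1 : ∀ b ∈ range r, ‖(if (F b + A).Coprime r then ψ ((F b + A : ℕ) : ZMod r) else 0)‖ ≤
      (1 : ℝ) := by
    intro b _
    split_ifs
    · exact DirichletCharacter.norm_le_one ψ _
    · simp
  refine (sum_le_sum h1).trans ?_
  simp

/-- the coefficient of the primitive character -/
noncomputable def cc {r : ℕ} (A k : ℕ) (ψ : DirichletCharacter ℂ r) : ℂ :=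
  ∑ j ∈ k.divisors, ((ArithmeticFunction.moebius (k / j) : ℤ) : ℂ) *
    (SS A ψ (r * j) / ((r * j).totient : ℂ))

theorem cc_eq {r A k : ℕ} (hr : 0 < r) (hk : k ≠ 0) (ψ : DirichletCharacter ℂ r) :
    cc A k ψ = SS A ψ r / (r.totient : ℂ) *
      if Squarefree k then ∏ p ∈ k.primeFactors, (ww r A p - 1) else 0 := by
  rw [← mob_w (ww r A) hk, mul_sum]
  unfold cc
  refine sum_congr rfl fun j hj => ?_
  rw [SS_all hr ψ j (Nat.pos_of_mem_divisors hj).ne']
  ring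

theorem totient_sqf {k : ℕ} (hs : Squarefree k) : k.totient = ∏ p ∈ k.primeFactors, (p - 1) := by
  have h1 := Nat.totient_mul_prod_primeFactors k
  rw [Nat.prod_primeFactors_of_squarefree hs] at h1
  have hk : 0 < k := Nat.pos_of_ne_zero hs.ne_zero
  rw [mul_comm] at h1
  exact Nat.eq_of_mul_eq_mul_left hk h1

theorem ww_sub {r A p : ℕ} (hp : p.Prime) (h : ¬ p ∣ r) :
    ww r A p - 1 = (1 - (rho A p : ℂ)) / ((p - 1 : ℕ) : ℂ) := by
  have hp1 : ((p : ℂ) - 1) ≠ 0 := by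
    have h4 : (p : ℂ) ≠ 1 := by exact_mod_cast hp.one_lt.ne'
    exact sub_ne_zero.mpr h4
  unfold ww
  rw [if_neg h, Nat.cast_sub hp.one_lt.le, Nat.cast_one]
  field_simp
  ring

theorem cc_zero {r A k : ℕ} (hr : 0 < r) (hk : k ≠ 0) (h : ¬ r.Coprime k)
    (ψ : DirichletCharacter ℂ r) : cc A k ψ = 0 := by
  rw [cc_eq hr hk]
  obtain ⟨p, hp, h1, h2⟩ := Nat.Prime.not_coprime_iff_dvd.mp h
  split_ifs with hs
  · rw [prod_eq_zero (Nat.mem_primeFactors.mpr ⟨hp, h2, hk⟩), mul_zero]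
    unfold ww
    rw [if_pos h1, sub_self]
  · rw [mul_zero]

theorem norm_cc {r A k : ℕ} (hr : 0 < r) (hk : k ≠ 0) (h : r.Coprime k)
    (ψ : DirichletCharacter ℂ r) :
    ‖cc A k ψ‖ ≤ (r : ℝ) / r.totient * (1 / (k.totient : ℝ)) := by
  rw [cc_eq hr hk, norm_mul]
  have hφ : (0 : ℝ) < r.totient := by exact_mod_cast Nat.totient_pos.mpr hr
  have hφk : (0 : ℝ) < k.totient := by
    exact_mod_cast Nat.totient_pos.mpr (Nat.pos_of_ne_zero hk)
  refine mul_le_mul ?_ ?_ (norm_nonneg _) (by positivity)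
  · rw [norm_div, Complex.norm_natCast]
    exact div_le_div_of_nonneg_right (norm_SS ψ) hφ.le
  · split_ifs with hs
    · rw [norm_prod, totient_sqf hs]
      push_cast
      rw [one_div, ← Finset.prod_inv_distrib]
      refine Finset.prod_le_prod (fun p _ => norm_nonneg _) fun p hp => ?_
      have hp' := Nat.prime_of_mem_primeFactors hp
      have hpr : ¬ p ∣ r := fun hd =>
        Nat.Prime.not_coprime_iff_dvd.mpr ⟨p, hp', hd, Nat.dvd_of_mem_primeFactors hp⟩ h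
      have hp1 : (0 : ℝ) < ((p - 1 : ℕ) : ℝ) := by
        exact_mod_cast Nat.sub_pos_of_lt hp'.one_lt
      rw [ww_sub hp' hpr, norm_div, Complex.norm_natCast, div_eq_mul_inv]
      refine mul_le_of_le_one_left (by positivity) ?_
      have h2 := rho_le (A := A) hp'
      have e : (1 - (rho A p : ℂ)) = (((1 - (rho A p : ℝ)) : ℝ) : ℂ) := by push_cast; rfl
      rw [e, Complex.norm_real, Real.norm_eq_abs, abs_le]
      have h3 : (rho A p : ℝ) ≤ 2 := by exact_mod_cast h2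
      have h4 : (0 : ℝ) ≤ rho A p := Nat.cast_nonneg _
      constructor <;> linarith
    · rw [norm_zero]
      positivity

theorem mob_eq {k : ℕ} (hk : k ≠ 0) : ((ArithmeticFunction.moebius k : ℤ) : ℂ) =
    if Squarefree k then ∏ p ∈ k.primeFactors, (-1 : ℂ) else 0 := by
  have h1 := mob_w (fun _ => (0 : ℂ)) hk
  simp only [zero_sub] at h1
  rw [← h1, Finset.sum_eq_single 1]
  · simp
  · intro j hj hj1
    have hj0 : j ≠ 0 := (Nat.pos_of_mem_divisors hj).ne'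
    have h2 : j.primeFactors.Nonempty := by
      rw [Nat.nonempty_primeFactors]
      omega
    obtain ⟨p, hp⟩ := h2
    rw [prod_eq_zero hp rfl, mul_zero]
  · intro h
    exact absurd (Nat.one_mem_divisors.mpr hk) h

/-- the main term -/
noncomputable def mt (q A : ℕ) : ℝ := ((ArithmeticFunction.moebius q : ℤ) : ℝ) / (q.totient : ℝ) *
        ∏ p ∈ q.primeFactors, ((rho A p : ℝ) - 1)

theorem cc_one {A q : ℕ} (hq : q ≠ 0) (ψ : DirichletCharacter ℂ 1) : cc A q ψ = (mt q A : ℂ) := by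
  rw [cc_eq one_pos hq]
  have e1 : SS A ψ 1 = 1 := by
    unfold SS
    rw [Finset.sum_range_one, if_pos (Nat.coprime_one_right _)]
    have h : ((F 0 + A : ℕ) : ZMod 1) = 1 := Subsingleton.elim _ _
    rw [h, map_one]
  rw [e1, Nat.totient_one, Nat.cast_one, div_one, one_mul]
  unfold mt
  push_cast
  rw [mob_eq hq]
  split_ifs with hs
  · rw [totient_sqf hs]
    push_cast
    rw [← Finset.prod_div_distrib, ← Finset.prod_mul_distrib]
    refine prod_congr rfl fun p hp => ?_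
    have hp' := Nat.prime_of_mem_primeFactors hp
    rw [ww_sub hp' (fun h => hp'.one_lt.ne' (Nat.dvd_one.mp h))]
    ring
  · simp

theorem per_k (A m : ℕ) (d b : ℕ) : (d : ℤ) ∣ (((F (b + d) + A : ℕ) : ℤ) - m) -
    (((F b + A : ℕ) : ℤ) - m) := by
  rw [F_add]
  refine ⟨2 * b + d + 1, ?_⟩
  push_cast
  ring

theorem sum_div_comm {q : ℕ} (hq : 0 < q) (f : ℕ → ℕ → ℂ) :
    ∑ d ∈ q.divisors, ∑ r ∈ d.divisors, f d r =
      ∑ r ∈ q.divisors, ∑ j ∈ (q / r).divisors, f (r * j) r := by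
  rw [Finset.sum_comm' (t' := q.divisors) (s' := fun r => q.divisors.filter (fun d => r ∣ d))]
  · refine sum_congr rfl fun r hr => ?_
    obtain ⟨k, rfl⟩ := Nat.dvd_of_mem_divisors hr
    have hr0 : 0 < r := Nat.pos_of_mem_divisors hr
    have hk0 : 0 < k := Nat.pos_of_ne_zero fun h => by simp [h] at hq
    rw [Nat.mul_div_cancel_left k hr0]
    symm
    refine Finset.sum_bij (fun j _ => r * j) ?_ ?_ ?_ ?_
    · intro j hj
      rw [mem_filter, Nat.mem_divisors]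
      exact ⟨⟨Nat.mul_dvd_mul_left r (Nat.dvd_of_mem_divisors hj), hq.ne'⟩, dvd_mul_right _ _⟩
    · intro a _ b _ h
      exact Nat.eq_of_mul_eq_mul_left hr0 h
    · intro d hd
      rw [mem_filter, Nat.mem_divisors] at hd
      obtain ⟨⟨h1, -⟩, j, rfl⟩ := hd
      exact ⟨j, Nat.mem_divisors.mpr ⟨Nat.dvd_of_mul_dvd_mul_left hr0 h1, hk0.ne'⟩, rfl⟩
    · intro j _
      rfl
  · intro d r
    rw [Nat.mem_divisors, Nat.mem_divisors, mem_filter, Nat.mem_divisors, Nat.mem_divisors]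
    constructor
    · rintro ⟨⟨h1, h2⟩, h3, -⟩
      exact ⟨⟨⟨h1, h2⟩, h3⟩, h3.trans h1, h2⟩
    · rintro ⟨⟨⟨h1, h2⟩, h3⟩, -, -⟩
      exact ⟨⟨h1, h2⟩, h3, fun h => h2 (by rw [h] at h1; exact Nat.eq_zero_of_zero_dvd h1)⟩

theorem inner {q A m : ℕ} (hq : 0 < q) (hm : m.Coprime q) :
    ∑ a ∈ rr q, G a q / q * e ((a : ℝ) * A / q) * e (-((a : ℝ) * m / q)) =
      ∑ r ∈ q.divisors, ∑ ψ ∈ pr r, (ψ (m : ZMod r))⁻¹ * cc A (q / r) ψ := by
  have hq' : (q : ℝ) ≠ 0 := by positivity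
  have h1 : ∑ a ∈ rr q, G a q / q * e ((a : ℝ) * A / q) * e (-((a : ℝ) * m / q)) =
      KK (fun b => ((F b + A : ℕ) : ℤ) - m) q := by
    unfold KK
    rw [Finset.sum_comm, mul_sum]
    refine sum_congr rfl fun a _ => ?_
    unfold G
    rw [mul_assoc, div_eq_mul_one_div, mul_right_comm, sum_mul, mul_comm]
    congr 1
    refine sum_congr rfl fun b _ => ?_
    rw [← e_add, ← e_add]
    congr 1
    push_cast
    field_simp
    ring
  rw [h1, KK_eq (per_k A m) hq]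
  have h2 : ∀ d ∈ q.divisors, ((ArithmeticFunction.moebius (q / d) : ℤ) : ℂ) *
      (NN (fun b => ((F b + A : ℕ) : ℤ) - m) d : ℂ) =
      ∑ r ∈ d.divisors, ∑ ψ ∈ pr r, ((ArithmeticFunction.moebius (q / d) : ℤ) : ℂ) *
        ((ψ (m : ZMod r))⁻¹ * (SS A ψ d / (d.totient : ℂ))) := by
    intro d hd
    have : NeZero d := ⟨(Nat.pos_of_mem_divisors hd).ne'⟩
    rw [NN_char (hm.coprime_dvd_right (Nat.dvd_of_mem_divisors hd)), mul_sum, mul_sum]
    refine sum_congr rfl fun r _ => ?_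
    rw [mul_sum, mul_sum]
    refine sum_congr rfl fun ψ _ => ?_
    ring
  rw [sum_congr rfl h2, sum_div_comm hq (fun d r => ∑ ψ ∈ pr r,
    ((ArithmeticFunction.moebius (q / d) : ℤ) : ℂ) *
        ((ψ (m : ZMod r))⁻¹ * (SS A ψ d / (d.totient : ℂ))))]
  refine sum_congr rfl fun r _ => ?_
  rw [Finset.sum_comm]
  refine sum_congr rfl fun ψ _ => ?_
  unfold cc
  rw [mul_sum]
  refine sum_congr rfl fun j _ => ?_
  rw [← Nat.div_div_eq_div_mul]
  ring

theorem pr_one : pr 1 = {1} := by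
  ext ψ
  rw [mem_pr, mem_singleton]
  constructor
  · intro _
    exact DirichletCharacter.level_one ψ
  · rintro rfl
    exact DirichletCharacter.isPrimitive_one_level_one

theorem pr_inv {r : ℕ} (f : DirichletCharacter ℂ r → ℝ) :
    ∑ ψ ∈ pr r, f ψ⁻¹ = ∑ ψ ∈ pr r, f ψ := by
  have h : ∀ ψ ∈ pr r, ψ⁻¹ ∈ pr r := fun ψ hψ => by
    rw [mem_pr, DirichletCharacter.isPrimitive_def, DirichletCharacter.conductor_inv]
    exact mem_pr.mp hψ
  exact Finset.sum_nbij' (fun ψ => ψ⁻¹) (fun ψ => ψ⁻¹) h h (fun ψ _ => inv_inv ψ)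
    (fun ψ _ => inv_inv ψ) fun ψ _ => rfl

/-- **CQ.** -/
theorem cq : S_CQ := by
  intro q A hq S v hS
  obtain ⟨B, hB⟩ : ∃ B : ℕ → ℂ, ∀ r, B r = ∑ ψ ∈ pr r, cc A (q / r) ψ *
    ∑ m ∈ S, v m * (ψ (m : ZMod r))⁻¹ := ⟨_, fun _ => rfl⟩
  have h1 : ∑ a ∈ rr q, G a q / q * e ((a : ℝ) * A / q) * ∑ m ∈ S, v m * e (-((a : ℝ) * m / q)) =
      ∑ r ∈ q.divisors, B r := by
    have e1 : ∑ a ∈ rr q, G a q / q * e ((a : ℝ) * A / q) *
        ∑ m ∈ S, v m * e (-((a : ℝ) * m / q)) =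
        ∑ m ∈ S, v m * ∑ a ∈ rr q, G a q / q * e ((a : ℝ) * A / q) * e (-((a : ℝ) * m / q)) := by
      simp_rw [mul_sum]
      rw [Finset.sum_comm]
      refine sum_congr rfl fun m _ => sum_congr rfl fun a _ => ?_
      ring
    rw [e1, sum_congr rfl fun m hm => by rw [inner hq (hS m hm)]]
    simp_rw [mul_sum]
    rw [Finset.sum_comm]
    refine sum_congr rfl fun r _ => ?_
    rw [Finset.sum_comm, hB]
    refine sum_congr rfl fun ψ _ => ?_
    rw [mul_sum]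
    refine sum_congr rfl fun m _ => ?_
    ring
  have h2 : B 1 = (mt q A : ℂ) * ∑ m ∈ S, v m := by
    rw [hB, pr_one, sum_singleton, Nat.div_one, cc_one (by omega)]
    congr 1
    refine sum_congr rfl fun m _ => ?_
    have e2 : (m : ZMod 1) = 1 := Subsingleton.elim _ _
    rw [e2, map_one, inv_one, mul_one]
  have h3 : (1 : ℕ) ∈ q.divisors := Nat.one_mem_divisors.mpr (by omega)
  rw [h1]
  change ‖∑ r ∈ q.divisors, B r - (mt q A : ℂ) * ∑ m ∈ S, v m‖ ≤ _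
  rw [← h2, ← Finset.sum_erase_eq_sub h3]
  refine (norm_sum_le _ _).trans ?_
  have h4 : ∑ r ∈ q.divisors.erase 1, ‖B r‖ =
      ∑ r ∈ q.divisors.filter (fun r => r ≠ 1 ∧ r.Coprime (q / r)), ‖B r‖ := by
    symm
    refine Finset.sum_subset ?_ ?_
    · intro r hr
      rw [mem_filter] at hr
      exact mem_erase.mpr ⟨hr.2.1, hr.1⟩
    · intro r hr hn
      rw [mem_erase] at hr
      have hc : ¬ r.Coprime (q / r) := fun hc => hn (mem_filter.mpr ⟨hr.2, hr.1, hc⟩)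
      have hr0 : 0 < r := Nat.pos_of_mem_divisors hr.2
      have hk : q / r ≠ 0 := (Nat.div_pos (Nat.le_of_dvd hq (Nat.dvd_of_mem_divisors hr.2)) hr0).ne'
      rw [hB, norm_eq_zero]
      refine sum_eq_zero fun ψ _ => ?_
      rw [cc_zero hr0 hk hc, zero_mul]
  rw [h4]
  refine sum_le_sum fun r hr => ?_
  rw [mem_filter] at hr
  have hr0 : 0 < r := Nat.pos_of_mem_divisors hr.1
  have hk : q / r ≠ 0 := (Nat.div_pos (Nat.le_of_dvd hq (Nat.dvd_of_mem_divisors hr.1)) hr0).ne'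
  rw [hB, ← pr_inv fun ψ => ‖∑ m ∈ S, v m * ψ (m : ZMod r)‖, mul_sum]
  refine (norm_sum_le _ _).trans (sum_le_sum fun ψ _ => ?_)
  rw [norm_mul]
  have e3 : ∑ m ∈ S, v m * (ψ (m : ZMod r))⁻¹ = ∑ m ∈ S, v m * ψ⁻¹ (m : ZMod r) :=
    sum_congr rfl fun m _ => by rw [MulChar.inv_apply_eq_inv']
  rw [e3]
  exact mul_le_mul_of_nonneg_right (norm_cc hr0 hk hr.2.2 ψ) (norm_nonneg _)

end Pool.Agent.P8H89.CF
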