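import Pool.Agent.P8H14.CF.Stm

/-!
# CF/CQ, first part: the sum over the fractions is a Möbius transform of a counting function
-/

set_option autoImplicit false

namespace Pool.Agent.P8H89.CF

open Finset Pool.Agent.P8H14.CF

theorem e_add (x y : ℝ) : e (x + y) = e x * e y := by
  unfold e
  rw [← Complex.exp_add]
  congr 1
  push_cast
  ring

theorem e_int (k : ℤ) : e (k : ℝ) = 1 := by
  unfold e
  rw [← Complex.exp_int_mul_two_pi_mul_I k]
  congr 1
  push_cast
  ring

theorem e_nat (a : ℕ) (x : ℝ) : e (a * x) = e x ^ a := by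
  unfold e
  rw [← Complex.exp_nat_mul]
  congr 1
  push_cast
  ring

theorem geom {n : ℕ} (hn : 0 < n) (k : ℤ) :
    ∑ a ∈ range n, e ((a : ℝ) * k / n) = if (n : ℤ) ∣ k then (n : ℂ) else 0 := by
  have hn' : (n : ℝ) ≠ 0 := by positivity
  have h1 : ∀ a : ℕ, e ((a : ℝ) * k / n) = e ((k : ℝ) / n) ^ a := fun a => by
    rw [← e_nat, mul_div_assoc]
  simp_rw [h1]
  split_ifs with h
  · obtain ⟨c, rfl⟩ := h
    have h2 : (((n : ℤ) * c : ℤ) : ℝ) / n = (c : ℝ) := by
      push_cast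
      field_simp
    rw [h2, e_int]
    simp
  · have hne : e ((k : ℝ) / n) ≠ 1 := by
      intro h2
      unfold e at h2
      rw [Complex.exp_eq_one_iff] at h2
      obtain ⟨c, hc⟩ := h2
      apply h
      have h3 : (2 * Real.pi * Complex.I : ℂ) ≠ 0 := Complex.two_pi_I_ne_zero
      have h4 : (((k : ℝ) / n : ℝ) : ℂ) = ((c : ℝ) : ℂ) := by
        apply mul_right_cancel₀ h3
        push_cast at hc ⊢
        linear_combination hc
      have h5 : (k : ℝ) / n = (c : ℝ) := by exact_mod_cast h4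
      rw [div_eq_iff hn'] at h5
      have h6 : (k : ℝ) = ((c * n : ℤ) : ℝ) := by
        push_cast
        exact h5
      have h7 : k = c * n := Int.cast_injective h6
      exact ⟨c, by rw [h7, mul_comm]⟩
    have h4 : e ((k : ℝ) / n) ^ n = 1 := by
      rw [← e_nat, mul_div_cancel₀ _ hn', e_int]
    rw [geom_sum_eq hne, h4, sub_self, zero_div]

theorem split_range {n : ℕ} (hn : 0 < n) (g : ℕ → ℕ → ℂ)
    (hg : ∀ a d c, 0 < c → 0 < d → g (a * c) (d * c) = g a d) :
    ∑ a ∈ range n, g a n = ∑ d ∈ n.divisors, ∑ a ∈ rr d, g a d := by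
  have hm : ∀ a ∈ range n, n / n.gcd a ∈ n.divisors := fun a _ =>
    Nat.mem_divisors.mpr ⟨Nat.div_dvd_of_dvd (Nat.gcd_dvd_left n a), hn.ne'⟩
  rw [← Finset.sum_fiberwise_of_maps_to hm]
  refine Finset.sum_congr rfl fun d hd => ?_
  obtain ⟨c, rfl⟩ := Nat.dvd_of_mem_divisors hd
  have hc : 0 < c := Nat.pos_of_ne_zero fun h => by simp [h] at hn
  have hd0 : 0 < d := Nat.pos_of_ne_zero fun h => by simp [h] at hn
  symm
  refine Finset.sum_bij (fun a _ => a * c) ?_ ?_ ?_ ?_
  · intro a ha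
    rw [rr, mem_filter, mem_range] at ha
    rw [mem_filter, mem_range]
    refine ⟨Nat.mul_lt_mul_of_pos_right ha.1 hc, ?_⟩
    rw [Nat.gcd_mul_right, (Nat.coprime_comm.mp ha.2 : d.gcd a = 1), one_mul,
      Nat.mul_div_cancel _ hc]
  · intro a _ b _ h
    exact Nat.eq_of_mul_eq_mul_right hc h
  · intro b hb
    rw [mem_filter, mem_range] at hb
    have h1 : (d * c).gcd b = c := by
      have h2 := Nat.div_mul_cancel (Nat.gcd_dvd_left (d * c) b)
      rw [hb.2] at h2
      exact Nat.eq_of_mul_eq_mul_left hd0 h2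
    have h3 : c ∣ b := by
      conv_lhs => rw [← h1]
      exact Nat.gcd_dvd_right _ _
    obtain ⟨a, rfl⟩ := h3
    refine ⟨a, ?_, mul_comm _ _⟩
    rw [rr, mem_filter, mem_range]
    rw [mul_comm d c] at hb h1
    refine ⟨Nat.lt_of_mul_lt_mul_left hb.1, ?_⟩
    rw [Nat.gcd_mul_left] at h1
    rw [Nat.coprime_comm]
    exact Nat.eq_of_mul_eq_mul_left hc (by rw [h1, mul_one])
  · intro a ha
    exact (hg a d c hc hd0).symm

theorem sum_periodic {d : ℕ} {f : ℕ → ℂ} (h : ∀ b, f (b + d) = f b) (c : ℕ) :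
    ∑ b ∈ range (d * c), f b = c * ∑ b ∈ range d, f b := by
  induction c with
  | zero => simp
  | succ c ih =>
    rw [mul_add, mul_one, Finset.sum_range_add, ih]
    have h1 : ∀ b, f (d * c + b) = f b := by
      intro b
      clear ih
      induction c with
      | zero => simp
      | succ c ih =>
        rw [mul_add, mul_one, show d * c + d + b = (d * c + b) + d by ring, h, ih]
    simp_rw [h1]
    push_cast
    ring

/-- the sum over the fractions with denominator `n` -/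
noncomputable def KK (k : ℕ → ℤ) (n : ℕ) : ℂ :=
  1 / n * ∑ b ∈ range n, ∑ a ∈ rr n, e ((a : ℝ) * k b / n)

/-- the number of zeros modulo `n` -/
def NN (k : ℕ → ℤ) (n : ℕ) : ℕ := ((range n).filter fun b => (n : ℤ) ∣ k b).card

theorem sum_KK {k : ℕ → ℤ} (hk : ∀ d b : ℕ, (d : ℤ) ∣ k (b + d) - k b) {n : ℕ} (hn : 0 < n) :
    ∑ d ∈ n.divisors, KK k d = NN k n := by
  have hn' : (n : ℂ) ≠ 0 := by exact_mod_cast hn.ne'
  have h1 : (NN k n : ℂ) = 1 / n * ∑ b ∈ range n, ∑ a ∈ range n, e ((a : ℝ) * k b / n) := by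
    simp_rw [geom hn]
    unfold NN
    rw [Finset.card_filter, mul_sum]
    push_cast
    refine Finset.sum_congr rfl fun b _ => ?_
    split_ifs
    · rw [one_div, inv_mul_cancel₀ hn']
    · rw [mul_zero]
  have h2 : ∀ b, ∑ a ∈ range n, e ((a : ℝ) * k b / n) =
      ∑ d ∈ n.divisors, ∑ a ∈ rr d, e ((a : ℝ) * k b / d) := fun b => by
    refine split_range hn (fun a d => e ((a : ℝ) * k b / d)) fun a d c hc hd => ?_
    have hc' : (c : ℝ) ≠ 0 := by positivity
    have hd' : (d : ℝ) ≠ 0 := by positivity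
    congr 1
    push_cast
    field_simp
  rw [h1]
  simp_rw [h2]
  rw [Finset.sum_comm, mul_sum]
  refine Finset.sum_congr rfl fun d hd => ?_
  obtain ⟨c, rfl⟩ := Nat.dvd_of_mem_divisors hd
  have hc : (c : ℂ) ≠ 0 := fun h => by simp [h] at hn'
  have hd0 : (d : ℂ) ≠ 0 := fun h => by simp [h] at hn'
  rw [sum_periodic (f := fun b => ∑ a ∈ rr d, e ((a : ℝ) * k b / d))]
  · unfold KK
    push_cast
    field_simp
  · intro b
    refine Finset.sum_congr rfl fun a _ => ?_
    obtain ⟨t, ht⟩ := hk d b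
    have h3 : k (b + d) = k b + d * t := by linarith
    have hd' : (d : ℝ) ≠ 0 := by exact_mod_cast (fun h => by simp [h] at hd0 : d ≠ 0)
    have h4 : (a : ℝ) * (k (b + d) : ℤ) / d = (a : ℝ) * (k b : ℤ) / d + ((a * t : ℤ) : ℝ) := by
      rw [h3]
      push_cast
      field_simp
    rw [h4, e_add, e_int, mul_one]

theorem KK_eq {k : ℕ → ℤ} (hk : ∀ d b : ℕ, (d : ℤ) ∣ k (b + d) - k b) {n : ℕ} (hn : 0 < n) :
    KK k n = ∑ d ∈ n.divisors, ((ArithmeticFunction.moebius (n / d) : ℤ) : ℂ) * NN k d := by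
  have h1 := (ArithmeticFunction.sum_eq_iff_sum_mul_moebius_eq (f := KK k)
    (g := fun n => (NN k n : ℂ))).mp (fun n hn => sum_KK hk hn) n hn
  rw [← h1, Nat.sum_divisorsAntidiagonal' (f := fun x y =>
    ((ArithmeticFunction.moebius x : ℤ) : ℂ) * NN k y)]

end Pool.Agent.P8H89.CF
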